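import Pool.Agent.H8.UN.Targets

/-!
# CO: tiling systems are coded
-/

set_option autoImplicit false

namespace Pool.Agent.H59.UN

open Pool.Agent.H69.Sp Pool.Agent.H69.Mt Pool.Agent.H16.TO Pool.Agent.H8.PL Pool.Agent.H8.DI
  Pool.Agent.H8.PU Pool.Agent.H8.UN

lemma bn_lt (a b c d : Bool) : bn a b c d < 16 := by
  cases a <;> cases b <;> cases c <;> cases d <;> decide

lemma bn_inj {a b c d a' b' c' d' : Bool} (h : bn a b c d = bn a' b' c' d') :
    a = a' ∧ b = b' ∧ c = c' ∧ d = d' := by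
  revert h
  cases a <;> cases b <;> cases c <;> cases d <;> cases a' <;> cases b' <;> cases c' <;>
    cases d' <;> decide

lemma dec_unique {q i j i' j' : ℕ} (hi : i < q) (hi' : i' < q) (h : i + q * j = i' + q * j') :
    i = i' ∧ j = j' := by
  have h1 : (i + q * j) % q = (i' + q * j') % q := by rw [h]
  rw [Nat.add_mul_mod_self_left, Nat.add_mul_mod_self_left, Nat.mod_eq_of_lt hi,
    Nat.mod_eq_of_lt hi'] at h1
  refine ⟨h1, ?_⟩
  subst h1
  have h2 : q * j = q * j' := Nat.add_left_cancel h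
  exact Nat.eq_of_mul_eq_mul_left (by omega) h2

lemma grid_congr {Q Q' : Type} {U : Bool → Bool → Bool → Bool → Q → Prop} {Hh Vv : Q → Q → Prop}
    {U' : Bool → Bool → Bool → Bool → Q' → Prop} {H' V' : Q' → Q' → Prop} {N : ℕ}
    {t : ℕ → ℕ → Q} {t' : ℕ → ℕ → Q'}
    (hU : ∀ x < N, ∀ y < N, ∀ z l b u, U z l b u (t x y) ↔ U' z l b u (t' x y))
    (hH : ∀ x < N, ∀ y < N, ∀ x' < N, ∀ y' < N, (Hh (t x y) (t x' y') ↔ H' (t' x y) (t' x' y')) ∧
      (Vv (t x y) (t x' y') ↔ V' (t' x y) (t' x' y'))) :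
    GridF U Hh Vv N N t ↔ GridF U' H' V' N N t' := by
  unfold GridF
  refine and_congr ?_ (and_congr ?_ ?_)
  · exact forall_congr' fun x => forall_congr' fun hx => forall_congr' fun y =>
      forall_congr' fun hy => hU x hx y hy _ _ _ _
  · exact forall_congr' fun x => forall_congr' fun y => forall_congr' fun hx =>
      forall_congr' fun hy => (hH x (by omega) y hy (x + 1) hx y hy).1
  · exact forall_congr' fun x => forall_congr' fun y => forall_congr' fun hx =>
      forall_congr' fun hy => (hH x hx y (by omega) x hx (y + 1) hy).2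

theorem pf_co (hFS : N_FS) : N_CO := by
  intro Q _ U Hh Vv
  obtain ⟨q, ⟨e⟩⟩ := Finite.exists_equiv_fin Q
  obtain ⟨c, d, hd, hcd⟩ := hFS (3 * (16 * q + q * q) + 3) (fun idx =>
    (∃ i j : Fin q, idx = 3 * (i.1 + q * j.1) ∧ Hh (e.symm i) (e.symm j)) ∨
    (∃ i j : Fin q, idx = 3 * (i.1 + q * j.1) + 1 ∧ Vv (e.symm i) (e.symm j)) ∨
    ∃ (i : Fin q) (z l b u : Bool), idx = 3 * (i.1 + q * bn z l b u) + 2 ∧
      U z l b u (e.symm i))
  have hb : ∀ i j : Fin q, i.1 + q * j.1 < q * q := by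
    intro i j
    have h1 : q * (j.1 + 1) ≤ q * q := Nat.mul_le_mul_left q j.2
    have h2 := i.2
    rw [Nat.mul_add, Nat.mul_one] at h1
    omega
  have hh : ∀ i j : Fin q, bt c d (3 * (i.1 + q * j.1)) ↔ Hh (e.symm i) (e.symm j) := by
    intro i j
    rw [hcd _ (by have := hb i j; omega)]
    constructor
    · rintro (⟨i', j', h1, h2⟩ | ⟨i', j', h1, -⟩ | ⟨i', z, l, b, u, h1, -⟩)
      · obtain ⟨h3, h4⟩ := dec_unique i.2 i'.2 (show i.1 + q * j.1 = i'.1 + q * j'.1 by omega)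
        rw [Fin.ext h3, Fin.ext h4]
        exact h2
      · omega
      · omega
    · exact fun h => Or.inl ⟨i, j, rfl, h⟩
  have hv : ∀ i j : Fin q, bt c d (3 * (i.1 + q * j.1) + 1) ↔ Vv (e.symm i) (e.symm j) := by
    intro i j
    rw [hcd _ (by have := hb i j; omega)]
    constructor
    · rintro (⟨i', j', h1, h2⟩ | ⟨i', j', h1, h2⟩ | ⟨i', z, l, b, u, h1, -⟩)
      · omega
      · obtain ⟨h3, h4⟩ := dec_unique i.2 i'.2 (show i.1 + q * j.1 = i'.1 + q * j'.1 by omega)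
        rw [Fin.ext h3, Fin.ext h4]
        exact h2
      · omega
    · exact fun h => Or.inr (Or.inl ⟨i, j, rfl, h⟩)
  have hu : ∀ (i : Fin q) (z l b u : Bool), bt c d (3 * (i.1 + q * bn z l b u) + 2) ↔
      U z l b u (e.symm i) := by
    intro i z l b u
    have h0 : i.1 + q * bn z l b u < 16 * q := by
      have h1 : q * (bn z l b u + 1) ≤ q * 16 := Nat.mul_le_mul_left q (bn_lt z l b u)
      have h2 := i.2
      rw [Nat.mul_add, Nat.mul_one] at h1
      omega
    rw [hcd _ (by omega)]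
    constructor
    · rintro (⟨i', j', h1, h2⟩ | ⟨i', j', h1, h2⟩ | ⟨i', z', l', b', u', h1, h2⟩)
      · omega
      · omega
      · obtain ⟨h3, h4⟩ := dec_unique i.2 i'.2
          (show i.1 + q * bn z l b u = i'.1 + q * bn z' l' b' u' by omega)
        obtain ⟨h5, h6, h7, h8⟩ := bn_inj h4
        rw [Fin.ext h3, h5, h6, h7, h8]
        exact h2
    · exact fun h => Or.inr (Or.inr ⟨i, z, l, b, u, rfl, h⟩)
  refine ⟨c, d, q, hd, fun N hN => ?_⟩
  constructor
  · rintro ⟨t, ht⟩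
    refine ⟨fun x y => (e (t x y)).1, fun x _ y _ => (e (t x y)).2, ?_⟩
    refine (grid_congr (t := t) ?_ ?_).1 ht
    · intro x _ y _ z l b u
      have h := hu (e (t x y)) z l b u
      rw [Equiv.symm_apply_apply] at h
      exact h.symm
    · intro x _ y _ x' _ y' _
      have h1 := hh (e (t x y)) (e (t x' y'))
      have h2 := hv (e (t x y)) (e (t x' y'))
      rw [Equiv.symm_apply_apply, Equiv.symm_apply_apply] at h1 h2
      exact ⟨h1.symm, h2.symm⟩
  · rintro ⟨t, ht1, ht2⟩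
    have hq : 0 < q := lt_of_le_of_lt (Nat.zero_le _) (ht1 0 hN 0 hN)
    have hmod : ∀ x < N, ∀ y < N, t x y % q = t x y := fun x hx y hy =>
      Nat.mod_eq_of_lt (ht1 x hx y hy)
    refine ⟨fun x y => e.symm ⟨t x y % q, Nat.mod_lt _ hq⟩, ?_⟩
    refine (grid_congr (t' := t) ?_ ?_).2 ht2
    · intro x hx y hy z l b u
      have h := hu ⟨t x y % q, Nat.mod_lt _ hq⟩ z l b u
      simp only [hmod x hx y hy] at h ⊢
      exact h.symm
    · intro x hx y hy x' hx' y' hy'
      have h1 := hh ⟨t x y % q, Nat.mod_lt _ hq⟩ ⟨t x' y' % q, Nat.mod_lt _ hq⟩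
      have h2 := hv ⟨t x y % q, Nat.mod_lt _ hq⟩ ⟨t x' y' % q, Nat.mod_lt _ hq⟩
      simp only [hmod x hx y hy, hmod x' hx' y' hy'] at h1 h2 ⊢
      exact ⟨h1.symm, h2.symm⟩

end Pool.Agent.H59.UN
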